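import Mathlib
import Pool.Agent.Q166.NuEuler

/-!
# MP_f3603a_co: the vertex-deletion identity for `ν` on Eulerian graphs

For an Eulerian graph the sign `(-1) ^ des_D(σ)` is invariant under the cyclic shift of the values
of `σ`, hence `ν(G) = |V| ν(G - v)` for every vertex `v`, and `ν(G)` is the sum of the `ν(G - v)`.
-/

set_option autoImplicit false

open Polynomial
open scoped Classical

namespace Pool.Agent.Results.MP_f3603a_co.VertexDeletion

/-- The digraph `D` (as a relation) is an orientation of the graph `G`. -/
def IsOrientation {V : Type} (D : V → V → Prop) (G : SimpleGraph V) : Prop :=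
  ∀ u w, (G.Adj u w ↔ D u w ∨ D w u) ∧ ¬ (D u w ∧ D w u)

/-- Number of `D`-descents of the bijection `σ` from `V` to `{0, …, n-1}`. -/
noncomputable def des {V : Type} {n : ℕ} (D : V → V → Prop) (σ : V ≃ Fin n) : ℕ :=
  Nat.card {p : V × V // D p.1 p.2 ∧ σ p.1 > σ p.2}

/-- The Eulerian polynomial `A_D(t)`. -/
noncomputable def eulerian {V : Type} [Fintype V] (D : V → V → Prop) : ℤ[X] :=
  ∑ σ : V ≃ Fin (Fintype.card V), X ^ des D σ

/-- One orientation of `G`: from the smaller to the larger vertex in an arbitrary enumeration. -/
noncomputable def orient {V : Type} [Fintype V] (G : SimpleGraph V) : V → V → Prop :=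
  fun u w => G.Adj u w ∧ Fintype.equivFin V u < Fintype.equivFin V w

/-- `ν(G) = |A_D(-1)|`, for the orientation `D = orient G`. -/
noncomputable def nu {V : Type} [Fintype V] (G : SimpleGraph V) : ℤ :=
  |(eulerian (orient G)).eval (-1)|

theorem orient_isOrientation {V : Type} [Fintype V] (G : SimpleGraph V) :
    IsOrientation (orient G) G := by
  intro u w
  unfold orient
  constructor
  · constructor
    · intro h
      have hne : Fintype.equivFin V u ≠ Fintype.equivFin V w := fun e =>
        h.ne ((Fintype.equivFin V).injective e)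
      rcases lt_or_gt_of_ne hne with h1 | h1
      · exact Or.inl ⟨h, h1⟩
      · exact Or.inr ⟨h.symm, h1⟩
    · rintro (h | h)
      · exact h.1
      · exact h.1.symm
  · rintro ⟨h1, h2⟩
    exact lt_asymm h1.2 h2.2

theorem sign_eq {V : Type} [Fintype V] {n : ℕ} (D : V → V → Prop) (σ : V ≃ Fin n) :
    (-1 : ℤ) ^ des D σ = Q166.NuEuler.S D σ := by
  unfold des Q166.NuEuler.S
  rw [← Finset.prod_product', Finset.univ_product_univ, Finset.prod_ite, Finset.prod_const,
    Finset.prod_const_one, mul_one, Nat.card_eq_fintype_card, Fintype.card_subtype]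

theorem eval_eq {V : Type} [Fintype V] (D : V → V → Prop) :
    (eulerian D).eval (-1) = Q166.NuEuler.A D (Fintype.card V) := by
  unfold eulerian Q166.NuEuler.A
  rw [eval_finsetSum]
  apply Finset.sum_congr rfl
  intro σ _
  rw [eval_pow, eval_X, sign_eq]

/-- `ν` does not depend on the orientation, and for every Eulerian graph `G` (all degrees even)
with at least one vertex, `ν(G)` is the sum of the numbers `ν(G - v)` over all vertices `v`. -/
theorem result :
    (∀ (V : Type) [Fintype V] (G : SimpleGraph V) (D : V → V → Prop), IsOrientation D G →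
      |(eulerian D).eval (-1)| = nu G) ∧
    (∀ (V : Type) [Fintype V] [Nonempty V] (G : SimpleGraph V),
      (∀ v, Even (G.degree v)) → nu G = ∑ v : V, nu (G.induce {u | u ≠ v})) := by
  constructor
  · intro V _ G D hD
    unfold nu
    rw [eval_eq, eval_eq]
    exact Q166.NuEuler.A_indep hD (orient_isOrientation G) _
  · intro V _ _ G hG
    have hG' : ∀ v, Even (Nat.card (G.neighborSet v)) := by
      intro v
      have := hG v
      rwa [← SimpleGraph.card_neighborSet_eq_degree, ← Nat.card_eq_fintype_card] at this
    obtain ⟨n, hn⟩ : ∃ n, Fintype.card V = n + 1 :=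
      ⟨Fintype.card V - 1, by have := Fintype.card_pos (α := V); omega⟩
    have h1 := Q166.NuEuler.main (orient_isOrientation G) hG' hn
      (fun v => orient (G.induce {u | u ≠ v})) (fun v => orient_isOrientation _)
    unfold nu
    rw [eval_eq, hn, h1]
    apply Finset.sum_congr rfl
    intro v _
    rw [eval_eq]
    have h2 : Fintype.card ({u | u ≠ v} : Set V) = n := by
      have := Set.card_ne_eq v
      omega
    rw [h2]

end Pool.Agent.Results.MP_f3603a_co.VertexDeletion
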